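import Pool.Agent.R490.Cc

set_option autoImplicit false

/-!
# Chains of the second kind which start with a prime and continue with rough numbers
-/

namespace Pool.Agent.Results.MP_9f2731_nt.LawAfterPrimes

open Finset Filter

/-- `p` divides one of the first `k` numbers `2 ^ j (m - 1) + 1`, `j = 0, 1, ..., k - 1`, of the chain of the
second kind which starts with `m`. -/
def Bad (k p m : ℕ) : Prop := ∃ j < k, (p : ℤ) ∣ 2 ^ j * ((m : ℤ) - 1) + 1

/-- None of the first `k` numbers of the chain which starts with `m` has a prime factor `≤ y`. -/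
def RoughChain (k : ℕ) (y m : ℕ) : Prop := ∀ p : ℕ, p.Prime → p ≤ y → ¬ Bad k p m

open Classical in
/-- The density of the condition `RoughChain k y`: the product of `1 - ν(p) / p` over the primes `p ≤ y`, where
`ν(p)` is the number of the residues `m` modulo `p` with `Bad k p m`. -/
noncomputable def V (k : ℕ) (y : ℕ) : ℝ := ∏ p ∈ (Finset.range (y + 1)).filter Nat.Prime,
    (1 - (((Finset.range p).filter (fun m : ℕ => Bad k p m)).card : ℝ) / p)

/-- The density of the integers without prime factor `≤ y`. -/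
noncomputable def V1 (y : ℕ) : ℝ := ∏ p ∈ (Finset.range (y + 1)).filter Nat.Prime, (1 - 1 / (p : ℝ))

open Classical in
/-- The PRIMES `n` in `(u, u + Y]` with `RoughChain k y n`. -/
noncomputable def P (k y u Y : ℕ) : Finset ℕ := (Ioc u (u + Y)).filter (fun n => n.Prime ∧ RoughChain k y n)

open Classical in
/-- The number of the `m` in `(n, n + T]` with `RoughChain k y m`. -/
noncomputable def Next (k y T n : ℕ) : ℕ := ((Ioc n (n + T)).filter (fun m => RoughChain k y m)).card

open Classical in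
/-- **Chains which start with a prime.** Let `k ≥ 2`, `0 < θ`, `0 < δ ≤ 1`, `x0` and `0 < ε ≤ 1`. There is `r0`
such that for every `r ≥ r0` and all large `N`, with `y = N ^ (1 / r)` and `W = V / V1`, for all windows
`(u, u + Y]` with `u + Y ≤ X`, `δ X ≤ Y`, `X ≥ N ^ θ`: the primes `p` in the window for which the first `k`
numbers `p, 2 p - 1, 4 p - 3, ...` of the chain have no prime factor `≤ y` number `Y W / log X`, up to the factor
`1 + ε`, and for exactly the expected proportions of them, `e ^ (- T V) (T V) ^ j / j!`, there are `j` integers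
`m` in `(p, p + T]` which start such a chain of `k` numbers without prime factors `≤ y`, as for a Poisson
process, `T V ≤ x0`. -/
theorem result (k : ℕ) (hk : 2 ≤ k) (θ δ : ℝ) (hθ : 0 < θ) (hδ : 0 < δ) (hδ1 : δ ≤ 1) (x0 ε : ℝ)
    (hε : 0 < ε) (hε1 : ε ≤ 1) :
    ∃ r0 : ℕ, 2 ≤ r0 ∧ ∀ r : ℕ, r0 ≤ r → ∀ᶠ N : ℕ in atTop, ∀ y : ℕ, y = ⌊(N : ℝ) ^ (1 / (r : ℝ))⌋₊ →
      0 < V k y / V1 y ∧ ∀ X : ℕ, (N : ℝ) ^ θ ≤ X → ∀ u Y : ℕ, δ * X ≤ Y → u + Y ≤ X →
      |((P k y u Y).card : ℝ) * Real.log X - Y * (V k y / V1 y)| ≤ ε * (Y * (V k y / V1 y)) ∧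
      ∀ T : ℕ, T * V k y ≤ x0 → ∀ J : Finset ℕ,
      |(((P k y u Y).filter (fun n => Next k y T n ∈ J)).card : ℝ) - (P k y u Y).card *
          ∑ j ∈ J, Real.exp (-(T * V k y)) * (T * V k y) ^ j / j.factorial| ≤
        ε * (P k y u Y).card := by
  obtain ⟨r0, hr0, h0⟩ := Pool.Agent.R490.LZR.primeZ 1 k k squarefree_one hk 1 θ δ one_pos hθ hδ hδ1 x0 ε
    hε hε1
  refine ⟨r0, hr0, fun r hr => ?_⟩
  filter_upwards [h0 r hr, eventually_ge_atTop 2] with N hN hN2
  intro y hy
  have h1 := hN (Pool.Agent.R490.Cc.cc k) (Bad k) 0 (Pool.Agent.R490.Cc.cc_card k)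
    (Pool.Agent.R490.Cc.cc_rep k _ (fun p m => Iff.rfl))
    (Pool.Agent.R490.Cc.mem_cc.2 ⟨0, by omega, by norm_num⟩) (by push_cast; positivity)
    (fun p hp h => absurd (Nat.dvd_one.1 h) hp.one_lt.ne')
    (Pool.Agent.R490.Cc.up (Pool.Agent.R490.Cc.cc_good k) (Nat.pow_le_pow_left hN2 k))
    (Pool.Agent.R490.Cc.cc_noT k _) y hy
  have eP : ∀ u Y, Pool.Agent.R490.Gn.Pb 1 0 (Bad k) y u Y = P k y u Y := by
    intro u Y
    unfold Pool.Agent.R490.Gn.Pb P
    apply Finset.filter_congr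
    intro n _
    rw [one_mul, add_zero]
    exact Iff.rfl
  simp only [eP] at h1
  exact h1

end Pool.Agent.Results.MP_9f2731_nt.LawAfterPrimes
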