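import Pool.Agent.R490.Cc

set_option autoImplicit false

/-!
# Regular points of arbitrary sets of starting points of prime or rough chains of the second kind
-/

namespace Pool.Agent.Results.MP_9f2731_nt.RegularPoints

open Finset Filter

/-- `p` divides one of the first `k` numbers `2 ^ j (m - 1) + 1`, `j = 0, 1, ..., k - 1`, of the chain of the
second kind which starts with `m`. -/
def Bad (k p m : ℕ) : Prop := ∃ j < k, (p : ℤ) ∣ 2 ^ j * ((m : ℤ) - 1) + 1

/-- None of the first `k` numbers of the chain which starts with `m` has a prime factor `≤ y`. -/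
def RoughChain (k : ℕ) (y m : ℕ) : Prop := ∀ p : ℕ, p.Prime → p ≤ y → ¬ Bad k p m

open Classical in
/-- The density of the condition `RoughChain k y`: the product of `1 - ν(p) / p` over the primes `p ≤ y`, where
`ν(p)` is the number of the residues `m` modulo `p` with `Bad k p m`. -/
noncomputable def V (k : ℕ) (y : ℕ) : ℝ := ∏ p ∈ (Finset.range (y + 1)).filter Nat.Prime,
    (1 - (((Finset.range p).filter (fun m : ℕ => Bad k p m)).card : ℝ) / p)

open Classical in
/-- The number of elements of `S` in `(a, b]`. -/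
noncomputable def count (S : Set ℕ) (a b : ℕ) : ℕ := ((Finset.Ioc a b).filter (fun m => m ∈ S)).card

/-- All intervals `(m - s, m + t]` with `s, t ≤ Y` of length at least `L / κ` contain between
`κ (s + t) / L` and `(s + t) / (κ L)` elements of `S`. -/
def RightOrder (S : Set ℕ) (L κ : ℝ) (Y m : ℕ) : Prop :=
  ∀ s t : ℕ, s ≤ Y → t ≤ Y → L ≤ κ * (s + t) →
    κ * (s + t) / L ≤ count S (m - s) (m + t) ∧ (count S (m - s) (m + t) : ℝ) ≤ (s + t) / (κ * L)

/-- Up to `δ`, `S` has a constant density on both sides of `m` up to the distance `2 ^ j`. -/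
def ConstantDensity (S : Set ℕ) (L κ δ : ℝ) (m j : ℕ) : Prop :=
  ∃ lam : ℝ, κ ≤ lam ∧ lam ≤ 1 / κ ∧ ∀ s t : ℕ, s ≤ 2 ^ j → t ≤ 2 ^ j →
    |(count S (m - s) (m + t) : ℝ) - lam * (s + t) / L| ≤ δ * 2 ^ j / L

open Classical in
/-- The number of the scales `L ≤ 2 ^ j ≤ Y` without this property. -/
noncomputable def badScales (S : Set ℕ) (L κ δ : ℝ) (Y m : ℕ) : ℕ :=
  ((Finset.range (Nat.log 2 Y + 1)).filter (fun j => L ≤ (2 : ℝ) ^ j ∧ ¬ ConstantDensity S L κ δ m j)).card

/-- The elements of `S` that are not regular points of `S`. -/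
def Irregular (S : Set ℕ) (L κ δ : ℝ) (M Y : ℕ) : Set ℕ :=
  {m | m ∈ S ∧ ¬ (RightOrder S L κ Y m ∧ badScales S L κ δ Y m ≤ M)}

/-- **Regular points.** Let `k ≥ 2`, `θ > 0` be given and `r ≥ r0(k, θ)`. For `ε > 0` there is `κ > 0`, and for
`δ > 0` there is `M`, such that for all large `X`, all `X ^ θ ≤ Y ≤ X`, `u ≥ Y`, and EVERY set `S` of integers
`m` for which the first `k` numbers `m, 2 m - 1, 4 m - 3, ...` of the chain have no prime factor
`≤ y = X ^ (1 / r)`, for instance the set of the first elements of all Cunningham chains of the second kind of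
length `k` (beyond `y`): all but at most `ε Y V` of the elements of `S` in `(u, u + Y]` are regular points of
`S`: all intervals of length between `1 / (κ V)` and `Y` around them contain the right order of elements of
`S`, and `S` has a constant density up to `δ` around them at all but `M` dyadic scales. -/
theorem result (k : ℕ) (hk : 2 ≤ k) (θ : ℝ) (hθ : 0 < θ) :
    ∃ r0 : ℕ, 2 ≤ r0 ∧ ∀ r : ℕ, r0 ≤ r → ∀ ε : ℝ, 0 < ε → ∃ κ : ℝ, 0 < κ ∧
      ∀ δ : ℝ, 0 < δ → ∃ M : ℕ, ∀ᶠ X : ℕ in atTop, ∀ y : ℕ, y = ⌊(X : ℝ) ^ (1 / (r : ℝ))⌋₊ →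
      ∀ u Y : ℕ, (X : ℝ) ^ θ ≤ Y → Y ≤ X → Y ≤ u → ∀ S : Set ℕ, (∀ m ∈ S, RoughChain k y m) →
        (count (Irregular S (1 / V k y) κ δ M Y) u (u + Y) : ℝ) ≤ ε * (Y * V k y) := by
  obtain ⟨r0, hr0, h0⟩ := Pool.Agent.R490.LZR.regZ k k hk θ hθ
  refine ⟨r0, hr0, fun r hr ε hε => ?_⟩
  obtain ⟨κ, hκ, h1⟩ := h0 r hr ε hε
  refine ⟨κ, hκ, fun δ hδ => ?_⟩
  obtain ⟨M, h2⟩ := h1 δ hδ
  refine ⟨M, ?_⟩
  filter_upwards [h2, eventually_ge_atTop 2] with X hX hX2
  intro y hy u Y hY hYX hYu S hS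
  exact hX (Pool.Agent.R490.Cc.cc k) (Bad k) (Pool.Agent.R490.Cc.cc_card k)
    (Pool.Agent.R490.Cc.cc_rep k _ (fun p m => Iff.rfl))
    (Pool.Agent.R490.Cc.up (Pool.Agent.R490.Cc.cc_good k) (Nat.pow_le_pow_left hX2 k)) y hy u Y hY hYX hYu S hS

end Pool.Agent.Results.MP_9f2731_nt.RegularPoints
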